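import Pool.Agent.Helper6.MONO.Stmts

/-! # ACT : the action is linear and preserves the form -/

set_option autoImplicit false
noncomputable section
namespace Pool.Agent.Helper6.MONO

theorem act_hf_sub_smul (x y n : V3) (a b : ℂ) :
    hf (x - a • n) (y - b • n) =
      hf x y - star b * hf x n - a * hf n y + a * star b * hf n n := by
  simp only [hf, Pi.sub_apply, Pi.smul_apply, smul_eq_mul, star_sub, star_mul']
  ring

theorem act_hf_star (x y : V3) : star (hf x y) = hf y x := by
  simp only [hf, star_add, star_sub, star_mul', star_star]
  ring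

/-- the reflection as a linear map -/
def act_refl (n : V3) : E3 where
  toFun x := refl n x
  map_add' x y := by
    ext i
    simp only [refl, hf, Pi.add_apply, Pi.sub_apply, Pi.smul_apply, smul_eq_mul]
    ring
  map_smul' c x := by
    ext i
    simp only [refl, hf, Pi.sub_apply, Pi.smul_apply, smul_eq_mul, RingHom.id_apply]
    ring

theorem act_refl_apply (n x : V3) : act_refl n x = refl n x := rfl

theorem act_refl_pres (n : V3) (hn : hf n n = 1) : Pres (act_refl n) := by
  intro x y
  rw [act_refl_apply, act_refl_apply]
  unfold refl
  rw [act_hf_sub_smul, hn, star_mul', act_hf_star]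
  have h2 : star (2 : ℂ) = 2 := by simp
  rw [h2]
  ring

theorem st_ACT : ST_ACT := by
  intro e he w
  induction w with
  | nil => exact ⟨LinearMap.id, fun x => rfl, fun x y => rfl⟩
  | cons i w ih =>
    obtain ⟨g, hg, hp⟩ := ih
    refine ⟨(act_refl (e i)).comp g, ?_, ?_⟩
    · intro x
      rw [LinearMap.comp_apply, hg x, act_refl_apply]
      rfl
    · intro x y
      rw [LinearMap.comp_apply, LinearMap.comp_apply, act_refl_pres (e i) (he i), hp]

end Pool.Agent.Helper6.MONO

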